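import Mathlib

set_option autoImplicit false

/-! Plancherel's theorem for the integral Fourier transform of functions in `L¹ ∩ L²`. -/

namespace Pool.Agent.H25.Plancherel

open MeasureTheory FourierTransform SchwartzMap
open scoped ENNReal RealInnerProductSpace

variable {V : Type*} [NormedAddCommGroup V] [InnerProductSpace ℝ V] [FiniteDimensional ℝ V]
  [MeasurableSpace V] [BorelSpace V]

theorem fourier_ae_eq {f : V → ℂ} (h1 : Integrable f) (h2 : MemLp f 2) :
    ((𝓕 (h2.toLp f) : Lp ℂ 2 (volume : Measure V)) : V → ℂ) =ᵐ[volume] 𝓕 f := by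
  have hcont : Continuous (𝓕 f) := by
    have := VectorFourier.fourierIntegral_continuous (V := V) (W := V)
      Real.continuous_fourierChar (L := innerₗ V) continuous_inner h1
    exact this
  refine ae_eq_of_integral_contDiff_smul_eq ?_ hcont.locallyIntegrable ?_
  · exact ((Lp.memLp _).locallyIntegrable (by norm_num))
  · intro g hg hgc
    have hgC : HasCompactSupport (fun x => (g x : ℂ)) := hgc.comp_left Complex.ofReal_zero
    have hgCd : ContDiff ℝ ((⊤ : ℕ∞) : WithTop ℕ∞) (fun x => (g x : ℂ)) := Complex.ofRealCLM.contDiff.comp hg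
    let G : 𝓢(V, ℂ) := hgC.toSchwartzMap hgCd
    have hG : ∀ x, G x = (g x : ℂ) := fun x => rfl
    have e1 : ∫ x, g x • ((𝓕 (h2.toLp f) : Lp ℂ 2 (volume : Measure V)) : V → ℂ) x
        = ∫ x, G x • ((𝓕 (h2.toLp f) : Lp ℂ 2 (volume : Measure V)) : V → ℂ) x := by
      simp [hG]
    have e2 := Lp.toTemperedDistribution_apply (𝓕 (h2.toLp f) : Lp ℂ 2 (volume : Measure V)) G
    rw [e1, ← e2, ← Lp.fourier_toTemperedDistribution_eq]
    rw [TemperedDistribution.fourier_apply, Lp.toTemperedDistribution_apply]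
    have e3 : ∫ x, (𝓕 G) x • (h2.toLp f) x = ∫ x, (𝓕 G) x • f x := by
      refine integral_congr_ae ?_
      filter_upwards [h2.coeFn_toLp] with x hx
      rw [hx]
    rw [e3]
    have e4 : ∫ ξ, (𝓕 (G : V → ℂ)) ξ • f ξ = ∫ x, G x • (𝓕 f) x := by
      have := VectorFourier.integral_fourierIntegral_smul_eq_flip (V := V) (W := V)
        (L := innerₗ V) (e := Real.fourierChar) (μ := volume) (ν := volume)
        (f := (G : V → ℂ)) (g := f) Real.continuous_fourierChar continuous_inner G.integrable h1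
      rw [flip_innerₗ] at this
      exact this
    rw [SchwartzMap.fourier_coe]
    rw [e4]
    simp [hG]

theorem eLpNorm_fourier_eq {f : V → ℂ} (h1 : Integrable f) (h2 : MemLp f 2) :
    eLpNorm (𝓕 f) 2 = eLpNorm f 2 := by
  rw [← eLpNorm_congr_ae (fourier_ae_eq h1 h2), ← eLpNorm_congr_ae h2.coeFn_toLp]
  have h := Lp.norm_fourier_eq (h2.toLp f)
  rw [Lp.norm_def, Lp.norm_def] at h
  exact (ENNReal.toReal_eq_toReal_iff' (Lp.eLpNorm_ne_top _) (Lp.eLpNorm_ne_top _)).1 h

end Pool.Agent.H25.Plancherel
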