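import Mathlib

set_option autoImplicit false

/-! Bessel inequality for the correlations of a bounded sequence with functions that are periodic
with pairwise coprime periods. -/

namespace Pool.Agent.H25.Resid

open Finset

/-- sum over `m < N * K` of an `N`-periodic function. -/
lemma sum_periodic (N K : ℕ) (f : ℕ → ℝ) (hf : ∀ m, f (m + N) = f m) :
    ∑ m ∈ range (N * K), f m = K * ∑ m ∈ range N, f m := by
  have hf' : ∀ K m, f (N * K + m) = f m := by
    intro K
    induction K with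
    | zero => intro m; simp
    | succ K ih =>
      intro m
      have : N * (K + 1) + m = (N * K + m) + N := by ring
      rw [this, hf, ih]
  induction K with
  | zero => simp
  | succ K ih =>
    rw [Nat.mul_succ, sum_range_add, ih]
    simp only [hf']
    push_cast
    ring

lemma sum_crt {P Q : ℕ} (hP : 0 < P) (hQ : 0 < Q) (hPQ : Nat.Coprime P Q) (a b : ℕ → ℝ) :
    ∑ m ∈ range (P * Q), a (m % P) * b (m % Q) = (∑ i ∈ range P, a i) * ∑ j ∈ range Q, b j := by
  have hinj : Set.InjOn (fun m => (m % P, m % Q)) (range (P * Q) : Set ℕ) := by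
    intro x hx y hy hxy
    simp only [Prod.mk.injEq] at hxy
    have h1 : x ≡ y [MOD P * Q] :=
      (Nat.modEq_and_modEq_iff_modEq_mul hPQ).1 ⟨hxy.1, hxy.2⟩
    have hx' : x < P * Q := by simpa using hx
    have hy' : y < P * Q := by simpa using hy
    exact Nat.ModEq.eq_of_lt_of_lt h1 hx' hy'
  have himg : (range (P * Q)).image (fun m => (m % P, m % Q)) = range P ×ˢ range Q := by
    refine eq_of_subset_of_card_le ?_ ?_
    · intro x hx
      obtain ⟨m, _, rfl⟩ := mem_image.1 hx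
      simp [Nat.mod_lt _ hP, Nat.mod_lt _ hQ]
    · rw [card_image_of_injOn hinj]
      simp
  rw [sum_mul_sum, ← sum_product', ← himg, sum_image hinj]

lemma sum_ortho {P Q M : ℕ} (hP : 0 < P) (hQ : 0 < Q) (hPQ : Nat.Coprime P Q)
    (hPM : P ∣ M) (hQM : Q ∣ M) (a b : ℕ → ℝ) (hb : ∑ j ∈ range Q, b j = 0) :
    ∑ m ∈ range M, a (m % P) * b (m % Q) = 0 := by
  obtain ⟨K, rfl⟩ := hPQ.mul_dvd_of_dvd_of_dvd hPM hQM
  rw [sum_periodic (P * Q) K (fun m => a (m % P) * b (m % Q)), sum_crt hP hQ hPQ, hb]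
  · simp
  · intro m
    have h1 : (m + P * Q) % P = m % P := by simp [Nat.add_mod]
    have h2 : (m + P * Q) % Q = m % Q := by simp [Nat.add_mod]
    simp only [h1, h2]

lemma sum_mod {P M : ℕ} (hPM : P ∣ M) (h : ℕ → ℝ) :
    (P : ℝ) * ∑ m ∈ range M, h (m % P) = M * ∑ r ∈ range P, h r := by
  obtain ⟨K, rfl⟩ := hPM
  rw [sum_periodic P K (fun m => h (m % P)) (fun m => by simp)]
  have : ∑ m ∈ range P, h (m % P) = ∑ r ∈ range P, h r :=
    sum_congr rfl fun m hm => by rw [Nat.mod_eq_of_lt (by simpa using hm)]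
  rw [this]
  push_cast
  ring

/-- class sum -/
noncomputable def cs (v : ℕ → ℝ) (M P r : ℕ) : ℝ := ∑ m ∈ range M, if m % P = r then v m else 0

/-- normalised sum of the absolute values of the class sums -/
noncomputable def Z (v : ℕ → ℝ) (M P : ℕ) : ℝ := (M : ℝ)⁻¹ * ∑ r ∈ range P, |cs v M P r|

lemma Z_nonneg (v : ℕ → ℝ) (M P : ℕ) : 0 ≤ Z v M P := by
  unfold Z; positivity

lemma Z_eq (v : ℕ → ℝ) {M P : ℕ} (hP : 0 < P) :
    Z v M P = (M : ℝ)⁻¹ * ∑ m ∈ range M, v m * SignType.sign (cs v M P (m % P)) := by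
  unfold Z
  congr 1
  have h1 : ∀ r ∈ range P, |cs v M P r|
      = ∑ m ∈ range M, if m % P = r then v m * SignType.sign (cs v M P (m % P)) else 0 := by
    intro r _
    have : |cs v M P r| = cs v M P r * SignType.sign (cs v M P r) := by
      rw [mul_comm]; exact (sign_mul_self _).symm
    rw [this]
    conv_lhs => rw [cs]
    rw [sum_mul]
    refine sum_congr rfl fun m _ => ?_
    split_ifs with h
    · rw [h]; rfl
    · simp
  rw [sum_congr rfl h1, sum_comm]
  refine sum_congr rfl fun m _ => ?_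
  rw [sum_ite_eq]
  simp [Nat.mod_lt _ hP]

/-- The Bessel-type inequality. -/
theorem bessel (S : Finset ℕ) (hS0 : ∀ P ∈ S, 0 < P)
    (hco : ∀ P ∈ S, ∀ Q ∈ S, P ≠ Q → Nat.Coprime P Q)
    {M : ℕ} (hM : 0 < M) (hdvd : ∀ P ∈ S, P ∣ M) (v : ℕ → ℝ) {V : ℝ}
    (hv : ∀ m, |v m| ≤ V) :
    ∑ P ∈ S, (Z v M P) ^ 2 ≤
      8 * V ^ 2 + 2 * S.card * ((M : ℝ)⁻¹ * ∑ m ∈ range M, v m) ^ 2 := by
  have hM' : (0 : ℝ) < M := by exact_mod_cast hM
  set vb : ℝ := (M : ℝ)⁻¹ * ∑ m ∈ range M, v m with hvb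
  let h : ℕ → ℕ → ℝ := fun P r => SignType.sign (cs v M P r)
  let hb : ℕ → ℝ := fun P => (P : ℝ)⁻¹ * ∑ r ∈ range P, h P r
  let h0 : ℕ → ℕ → ℝ := fun P r => h P r - hb P
  let b : ℕ → ℝ := fun P => (M : ℝ)⁻¹ * ∑ m ∈ range M, v m * h0 P (m % P)
  have hh : ∀ P r, |h P r| ≤ 1 := by
    intro P r
    simp only [h]
    rcases SignType.sign (cs v M P r) with _ | _ | _ <;> simp
  have hhb : ∀ P ∈ S, |hb P| ≤ 1 := by
    intro P hP
    have hP0 : (0 : ℝ) < P := by exact_mod_cast hS0 P hP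
    simp only [hb]
    rw [abs_mul, abs_of_nonneg (by positivity), inv_mul_le_iff₀ hP0, mul_one]
    refine (abs_sum_le_sum_abs _ _).trans ?_
    refine (sum_le_sum fun r _ => hh P r).trans ?_
    simp
  have hh0 : ∀ P ∈ S, ∀ r, |h0 P r| ≤ 2 := by
    intro P hP r
    simp only [h0]
    have := abs_sub (h P r) (hb P)
    have := hh P r
    have := hhb P hP
    linarith
  have hh0sum : ∀ P ∈ S, ∑ r ∈ range P, h0 P r = 0 := by
    intro P hP
    have hP0 : (P : ℝ) ≠ 0 := by exact_mod_cast (hS0 P hP).ne'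
    simp only [h0, hb]
    rw [sum_sub_distrib]
    simp only [sum_const, card_range, nsmul_eq_mul]
    field_simp
    simp
  have hZb : ∀ P ∈ S, Z v M P = b P + hb P * vb := by
    intro P hP
    rw [Z_eq v (hS0 P hP)]
    simp only [b, h0, hvb]
    have : ∑ m ∈ range M, v m * (h P (m % P) - hb P)
        = ∑ m ∈ range M, v m * h P (m % P) - hb P * ∑ m ∈ range M, v m := by
      rw [mul_sum, ← sum_sub_distrib]
      exact sum_congr rfl fun m _ => by ring
    rw [this]
    simp only [h]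
    ring
  -- the main inequality
  set B : ℝ := ∑ P ∈ S, b P ^ 2 with hB
  let w : ℕ → ℝ := fun m => ∑ P ∈ S, b P * h0 P (m % P)
  have hB1 : B = (M : ℝ)⁻¹ * ∑ m ∈ range M, v m * w m := by
    simp only [w, mul_sum]
    rw [sum_comm, hB]
    refine sum_congr rfl fun P _ => ?_
    rw [pow_two]
    nth_rewrite 2 [show b P = (M : ℝ)⁻¹ * ∑ m ∈ range M, v m * h0 P (m % P) from rfl]
    rw [mul_sum, mul_sum]
    exact sum_congr rfl fun m _ => by ring
  have hw : ∑ m ∈ range M, w m ^ 2 ≤ M * (4 * B) := by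
    have e1 : ∑ m ∈ range M, w m ^ 2
        = ∑ P ∈ S, ∑ Q ∈ S, b P * b Q * ∑ m ∈ range M, h0 P (m % P) * h0 Q (m % Q) := by
      have : ∀ m ∈ range M, w m ^ 2
          = ∑ P ∈ S, ∑ Q ∈ S, b P * b Q * (h0 P (m % P) * h0 Q (m % Q)) := by
        intro m _
        simp only [w]
        rw [pow_two, sum_mul_sum]
        refine sum_congr rfl fun P _ => sum_congr rfl fun Q _ => ?_
        ring
      rw [sum_congr rfl this, sum_comm]
      refine sum_congr rfl fun P _ => ?_
      rw [sum_comm]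
      refine sum_congr rfl fun Q _ => ?_
      rw [mul_sum]
    rw [e1]
    have e2 : ∀ P ∈ S, ∑ Q ∈ S, b P * b Q * ∑ m ∈ range M, h0 P (m % P) * h0 Q (m % Q)
        = b P ^ 2 * ∑ m ∈ range M, h0 P (m % P) ^ 2 := by
      intro P hP
      rw [sum_eq_single P]
      · rw [pow_two]
        congr 1
        exact sum_congr rfl fun m _ => by ring
      · intro Q hQ hne
        rw [sum_ortho (hS0 P hP) (hS0 Q hQ) (hco P hP Q hQ (Ne.symm hne)) (hdvd P hP)
          (hdvd Q hQ) (h0 P) (h0 Q) (hh0sum Q hQ), mul_zero]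
      · intro hn; exact absurd hP hn
    rw [sum_congr rfl e2, hB, mul_sum, mul_sum]
    refine sum_le_sum fun P hP => ?_
    have e3 : ∑ m ∈ range M, h0 P (m % P) ^ 2 ≤ M * 4 := by
      refine (sum_le_sum fun m _ => ?_).trans (by simp : ∑ _m ∈ range M, (4 : ℝ) ≤ M * 4)
      have := hh0 P hP (m % P)
      have h3 : h0 P (m % P) ^ 2 = |h0 P (m % P)| ^ 2 := (sq_abs _).symm
      rw [h3]
      nlinarith [abs_nonneg (h0 P (m % P))]
    have := mul_le_mul_of_nonneg_left e3 (sq_nonneg (b P))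
    linarith
  have hvv : ∑ m ∈ range M, v m ^ 2 ≤ M * V ^ 2 := by
    refine (sum_le_sum fun m _ => ?_).trans (by simp : ∑ _m ∈ range M, V ^ 2 ≤ M * V ^ 2)
    have := hv m
    rw [← sq_abs]
    exact pow_le_pow_left₀ (abs_nonneg _) this 2
  have hB0 : 0 ≤ B := sum_nonneg fun P _ => sq_nonneg _
  have hcs : (∑ m ∈ range M, v m * w m) ^ 2 ≤ (∑ m ∈ range M, v m ^ 2) * ∑ m ∈ range M, w m ^ 2 :=
    sum_mul_sq_le_sq_mul_sq _ _ _
  have hBB : B ^ 2 ≤ V ^ 2 * (4 * B) := by
    rw [hB1, mul_pow]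
    have h1 : (∑ m ∈ range M, v m * w m) ^ 2 ≤ (M * V ^ 2) * (M * (4 * B)) :=
      hcs.trans (mul_le_mul hvv hw (sum_nonneg fun _ _ => sq_nonneg _) (by positivity))
    rw [← hB1]
    calc ((M : ℝ)⁻¹) ^ 2 * (∑ m ∈ range M, v m * w m) ^ 2
        ≤ ((M : ℝ)⁻¹) ^ 2 * ((M * V ^ 2) * (M * (4 * B))) :=
          mul_le_mul_of_nonneg_left h1 (by positivity)
      _ = V ^ 2 * (4 * B) := by field_simp
  have hB4 : B ≤ 4 * V ^ 2 := by
    rcases eq_or_lt_of_le hB0 with h | h
    · rw [← h]; positivity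
    · by_contra hc
      push Not at hc
      nlinarith
  have hZ : ∀ P ∈ S, (Z v M P) ^ 2 ≤ 2 * b P ^ 2 + 2 * vb ^ 2 := by
    intro P hP
    rw [hZb P hP]
    have h1 : (hb P * vb) ^ 2 ≤ vb ^ 2 := by
      rw [mul_pow]
      have h2 : hb P ^ 2 ≤ 1 := by
        rw [← sq_abs]
        have := hhb P hP
        nlinarith [abs_nonneg (hb P)]
      nlinarith [sq_nonneg vb]
    nlinarith [sq_nonneg (b P - hb P * vb)]
  calc ∑ P ∈ S, (Z v M P) ^ 2 ≤ ∑ P ∈ S, (2 * b P ^ 2 + 2 * vb ^ 2) := sum_le_sum hZ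
    _ = 2 * B + 2 * S.card * vb ^ 2 := by
        rw [sum_add_distrib, ← mul_sum, sum_const, nsmul_eq_mul]; ring
    _ ≤ 8 * V ^ 2 + 2 * S.card * vb ^ 2 := by linarith

/-- shifting a window by `m` changes the sum by at most `2 m V`. -/
lemma shift_sum (u : ℕ → ℝ) {V : ℝ} (hu : ∀ n, |u n| ≤ V) (a L m : ℕ) :
    |∑ n ∈ Ico a (a + L), u (n + m) - ∑ n ∈ Ico a (a + L), u n| ≤ 2 * m * V := by
  induction m with
  | zero => simp
  | succ m ih =>
    have e : ∑ n ∈ Ico a (a + L), u (n + (m + 1))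
        = ∑ n ∈ Ico a (a + L), u (n + m) + u (a + L + m) - u (a + m) := by
      have h1 : ∑ n ∈ Ico a (a + L), u (n + (m + 1)) = ∑ n ∈ Ico (a + 1) (a + L + 1), u (n + m) := by
        rw [← sum_Ico_add' (fun n => u (n + m)) a (a + L) 1]
        refine sum_congr rfl fun n _ => ?_
        congr 1; ring
      rw [h1]
      have h2 : ∑ n ∈ Ico a (a + L + 1), u (n + m)
          = ∑ n ∈ Ico a (a + L), u (n + m) + u (a + L + m) :=
        sum_Ico_succ_top (by omega) _
      have h3 : ∑ n ∈ Ico a (a + L + 1), u (n + m)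
          = u (a + m) + ∑ n ∈ Ico (a + 1) (a + L + 1), u (n + m) :=
        sum_eq_sum_Ico_succ_bot (by omega) _
      linarith
    rw [e]
    have h1 := hu (a + L + m)
    have h2 := hu (a + m)
    rw [abs_le] at *
    push_cast
    constructor <;> linarith [h1.1, h1.2, h2.1, h2.2, ih.1, ih.2]

lemma resid_shift {P : ℕ} (hP : 0 < P) (g : ℕ → ℝ) (n : ℕ) :
    ∑ r ∈ range P, g ((n + r) % P) = ∑ r ∈ range P, g r := by
  have hinj : Set.InjOn (fun r => (n + r) % P) (range P : Set ℕ) := by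
    intro x hx y hy hxy
    have hx' : x < P := by simpa using hx
    have hy' : y < P := by simpa using hy
    have h1 : n + x ≡ n + y [MOD P] := hxy
    have h2 : x ≡ y [MOD P] := Nat.ModEq.add_left_cancel' n h1
    exact Nat.ModEq.eq_of_lt_of_lt h2 hx' hy'
  have himg : (range P).image (fun r => (n + r) % P) = range P := by
    refine eq_of_subset_of_card_le ?_ ?_
    · intro x hx
      obtain ⟨m, _, rfl⟩ := mem_image.1 hx
      simp [Nat.mod_lt _ hP]
    · rw [card_image_of_injOn hinj]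
  conv_rhs => rw [← himg, sum_image hinj]

/-- averages of class sums over a long interval are controlled by averages of `Z`. -/
theorem interval_le (v : ℕ → ℝ) {V : ℝ} (hV : 0 ≤ V) (hv : ∀ n, |v n| ≤ V) {M P : ℕ}
    (hM : 0 < M) (hP : 0 < P) (a L : ℕ) :
    ∑ r ∈ range P, |∑ n ∈ Ico a (a + L), if n % P = r then v n else 0|
      ≤ ∑ n ∈ Ico a (a + L), Z (fun m => v (n + m)) M P + 2 * P * M * V := by
  have hM' : (0 : ℝ) < M := by exact_mod_cast hM
  have h1 : ∀ r ∈ range P, |∑ n ∈ Ico a (a + L), if n % P = r then v n else 0|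
      ≤ (M : ℝ)⁻¹ * |∑ m ∈ range M, ∑ n ∈ Ico a (a + L),
          if (n + m) % P = r then v (n + m) else 0| + 2 * M * V := by
    intro r _
    set u : ℕ → ℝ := fun n => if n % P = r then v n else 0 with hu
    have huV : ∀ n, |u n| ≤ V := by
      intro n
      simp only [hu]
      split_ifs
      · exact hv n
      · simpa using hV
    have h2 : |∑ m ∈ range M, ∑ n ∈ Ico a (a + L), u (n + m) - M * ∑ n ∈ Ico a (a + L), u n|
        ≤ M * (2 * M * V) := by
      have e : ∑ m ∈ range M, ∑ n ∈ Ico a (a + L), u (n + m) - M * ∑ n ∈ Ico a (a + L), u n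
          = ∑ m ∈ range M, (∑ n ∈ Ico a (a + L), u (n + m) - ∑ n ∈ Ico a (a + L), u n) := by
        rw [sum_sub_distrib]; simp
      rw [e]
      refine (abs_sum_le_sum_abs _ _).trans ?_
      refine (sum_le_sum fun m hm => ?_).trans
        (by simp : ∑ _m ∈ range M, (2 * M * V : ℝ) ≤ M * (2 * M * V))
      refine (shift_sum u huV a L m).trans ?_
      have : (m : ℝ) ≤ M := by exact_mod_cast (mem_range.1 hm).le
      nlinarith
    have h3 : (M : ℝ) * |∑ n ∈ Ico a (a + L), u n|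
        ≤ |∑ m ∈ range M, ∑ n ∈ Ico a (a + L), u (n + m)| + M * (2 * M * V) := by
      have h4 : (M : ℝ) * |∑ n ∈ Ico a (a + L), u n| = |M * ∑ n ∈ Ico a (a + L), u n| := by
        rw [abs_mul, abs_of_pos hM']
      rw [h4]
      have := abs_sub_abs_le_abs_sub (M * ∑ n ∈ Ico a (a + L), u n)
        (∑ m ∈ range M, ∑ n ∈ Ico a (a + L), u (n + m))
      rw [abs_sub_comm] at h2
      linarith
    have h5 : |∑ n ∈ Ico a (a + L), u n| ≤ (M : ℝ)⁻¹ *
        (|∑ m ∈ range M, ∑ n ∈ Ico a (a + L), u (n + m)| + M * (2 * M * V)) := by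
      rw [le_inv_mul_iff₀ hM']
      exact h3
    refine h5.trans (le_of_eq ?_)
    rw [mul_add]
    congr 1
    field_simp
  refine (sum_le_sum h1).trans ?_
  rw [sum_add_distrib, ← mul_sum, sum_const, card_range, nsmul_eq_mul]
  have h2 : (M : ℝ)⁻¹ * ∑ r ∈ range P, |∑ m ∈ range M, ∑ n ∈ Ico a (a + L),
          if (n + m) % P = r then v (n + m) else 0|
      ≤ ∑ n ∈ Ico a (a + L), Z (fun m => v (n + m)) M P := by
    have h3 : ∀ r ∈ range P, |∑ m ∈ range M, ∑ n ∈ Ico a (a + L),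
          if (n + m) % P = r then v (n + m) else 0|
        ≤ ∑ n ∈ Ico a (a + L), |∑ m ∈ range M, if (n + m) % P = r then v (n + m) else 0| := by
      intro r _
      rw [sum_comm]
      exact abs_sum_le_sum_abs _ _
    refine (mul_le_mul_of_nonneg_left (sum_le_sum h3) (by positivity)).trans ?_
    rw [sum_comm, mul_sum]
    refine sum_le_sum fun n _ => ?_
    unfold Z
    refine mul_le_mul_of_nonneg_left (le_of_eq ?_) (by positivity)
    rw [← resid_shift hP (fun r => |∑ m ∈ range M, if (n + m) % P = r then v (n + m) else 0|) n]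
    refine sum_congr rfl fun r hr => ?_
    unfold cs
    congr 1
    refine sum_congr rfl fun m _ => ?_
    have h4 : (n + m) % P = (n + r) % P ↔ m % P = r := by
      constructor
      · intro h
        have h5 : n + m ≡ n + r [MOD P] := h
        have h6 : m ≡ r [MOD P] := Nat.ModEq.add_left_cancel' n h5
        have h7 : m % P = r % P := h6
        rw [h7, Nat.mod_eq_of_lt (by simpa using hr)]
      · intro h
        rw [← h]
        simp
    simp only [h4]
  have h3 : (P : ℝ) * (2 * M * V) = 2 * P * M * V := by ring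
  linarith

end Pool.Agent.H25.Resid
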