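import Mathlib

set_option autoImplicit false

/-! Uniform convergence of ergodic averages for a uniquely ergodic continuous map of a compact
metric space. -/

namespace Pool.Agent.H25.UE

open MeasureTheory Filter Topology

section UE

variable {X : Type*}

/-- empirical measure -/
noncomputable def emp [MeasurableSpace X] (T : X → X) (L : ℕ) (z : X) : Measure X :=
  (L : ENNReal)⁻¹ • ∑ n ∈ Finset.range L, Measure.dirac (T^[n] z)

lemma emp_prob [MeasurableSpace X] (T : X → X) {L : ℕ} (hL : 0 < L) (z : X) :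
    IsProbabilityMeasure (emp T L z) := by
  constructor
  unfold emp
  rw [Measure.smul_apply, Measure.finsetSum_apply]
  simp only [measure_univ, Finset.sum_const, Finset.card_range, nsmul_eq_mul, mul_one, smul_eq_mul]
  exact ENNReal.inv_mul_cancel (by exact_mod_cast hL.ne') (ENNReal.natCast_ne_top L)

variable [MetricSpace X] [CompactSpace X] [MeasurableSpace X] [BorelSpace X]

lemma emp_integral (T : X → X) (L : ℕ) (z : X) (G : C(X, ℝ)) :
    ∫ w, G w ∂(emp T L z) = (L : ℝ)⁻¹ * ∑ n ∈ Finset.range L, G (T^[n] z) := by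
  unfold emp
  rw [integral_smul_measure, integral_finsetSum_measure]
  · simp [ENNReal.toReal_inv]
  · intro i _
    exact integrable_dirac (by simp)

theorem unif_avg {T : X → X} (hT : Continuous T) {μ : Measure X} [IsProbabilityMeasure μ]
    (hμ : MeasurePreserving T μ μ)
    (huniq : ∀ ν : Measure X, IsProbabilityMeasure ν → MeasurePreserving T ν ν → ν = μ)
    (G : C(X, ℝ)) {ε : ℝ} (hε : 0 < ε) :
    ∃ L₀ : ℕ, 0 < L₀ ∧ ∀ L ≥ L₀, ∀ z : X,
      |(L : ℝ)⁻¹ * ∑ n ∈ Finset.range L, G (T^[n] z) - ∫ w, G w ∂μ| ≤ ε := by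
  by_contra hcon
  push Not at hcon
  have hcon' : ∀ j : ℕ, ∃ L ≥ j + 1, ∃ z : X,
      ε < |(L : ℝ)⁻¹ * ∑ n ∈ Finset.range L, G (T^[n] z) - ∫ w, G w ∂μ| :=
    fun j => hcon (j + 1) (Nat.succ_pos j)
  choose L hL z hz using hcon'
  have hLpos : ∀ j, 0 < L j := fun j => by have := hL j; omega
  let ν : ℕ → ProbabilityMeasure X := fun j => ⟨emp T (L j) (z j), emp_prob T (hLpos j) (z j)⟩
  let U : Ultrafilter ℕ := hyperfilter ℕ
  obtain ⟨νl, -, hνl⟩ := isCompact_univ.ultrafilter_le_nhds (U.map ν) (by simp)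
  have htend : Tendsto ν U (𝓝 νl) := hνl
  have hint : ∀ H : C(X, ℝ), Tendsto (fun j => ∫ w, H w ∂(ν j : Measure X)) U
      (𝓝 (∫ w, H w ∂(νl : Measure X))) := by
    intro H
    have := (ProbabilityMeasure.tendsto_iff_forall_integral_tendsto.1 htend)
      (BoundedContinuousFunction.mkOfCompact H)
    simpa using this
  have hUle : (U : Filter ℕ) ≤ atTop := by
    rw [← Nat.cofinite_eq_atTop]
    exact hyperfilter_le_cofinite
  have hLtop : Tendsto (fun j => (L j : ℝ)⁻¹) U (𝓝 0) := by
    refine Tendsto.mono_left ?_ hUle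
    refine tendsto_inv_atTop_zero.comp (tendsto_natCast_atTop_atTop.comp ?_)
    exact tendsto_atTop_mono (fun j => (Nat.le_succ j).trans (hL j)) tendsto_id
  have hinv : ∀ H : C(X, ℝ), ∫ w, H (T w) ∂(νl : Measure X) = ∫ w, H w ∂(νl : Measure X) := by
    intro H
    let HT : C(X, ℝ) := ⟨fun w => H (T w), H.continuous.comp hT⟩
    have h1 : Tendsto (fun j => ∫ w, HT w ∂(ν j : Measure X) - ∫ w, H w ∂(ν j : Measure X)) U
        (𝓝 (∫ w, HT w ∂(νl : Measure X) - ∫ w, H w ∂(νl : Measure X))) :=
      (hint HT).sub (hint H)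
    have h2 : Tendsto (fun j => ∫ w, HT w ∂(ν j : Measure X) - ∫ w, H w ∂(ν j : Measure X)) U
        (𝓝 0) := by
      have h3 : ∀ j, |∫ w, HT w ∂(ν j : Measure X) - ∫ w, H w ∂(ν j : Measure X)|
          ≤ (L j : ℝ)⁻¹ * (2 * ‖H‖) := by
        intro j
        have e1 : ∫ w, HT w ∂(ν j : Measure X) = _ := emp_integral T (L j) (z j) HT
        have e2 : ∫ w, H w ∂(ν j : Measure X) = _ := emp_integral T (L j) (z j) H
        rw [e1, e2, ← mul_sub, ← Finset.sum_sub_distrib, abs_mul, abs_of_nonneg (by positivity)]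
        refine mul_le_mul_of_nonneg_left ?_ (by positivity)
        have e3 : ∑ n ∈ Finset.range (L j), (HT (T^[n] (z j)) - H (T^[n] (z j)))
            = H (T^[L j] (z j)) - H (z j) := by
          have := Finset.sum_range_sub (fun n => H (T^[n] (z j))) (L j)
          rw [Function.iterate_zero, id] at this
          rw [← this]
          refine Finset.sum_congr rfl fun n _ => ?_
          rw [Function.iterate_succ_apply']
          rfl
        rw [e3]
        have h5 := H.norm_coe_le_norm (T^[L j] (z j))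
        have h6 := H.norm_coe_le_norm (z j)
        rw [Real.norm_eq_abs] at h5 h6
        have := abs_sub (H (T^[L j] (z j))) (H (z j))
        linarith
      refine squeeze_zero_norm (fun j => ?_) (by simpa using hLtop.mul_const (2 * ‖H‖))
      rw [Real.norm_eq_abs]
      exact h3 j
    have := tendsto_nhds_unique h1 h2
    have h7 : ∫ w, HT w ∂(νl : Measure X) = ∫ w, H w ∂(νl : Measure X) := by linarith
    exact h7
  have hmap : Measure.map T (νl : Measure X) = (νl : Measure X) := by
    haveI : IsProbabilityMeasure (Measure.map T (νl : Measure X)) :=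
      Measure.isProbabilityMeasure_map hT.measurable.aemeasurable
    refine ext_of_forall_integral_eq_of_IsFiniteMeasure fun H => ?_
    rw [integral_map hT.measurable.aemeasurable H.continuous.aestronglyMeasurable]
    exact hinv H.toContinuousMap
  have heq := huniq (νl : Measure X) inferInstance ⟨hT.measurable, hmap⟩
  have h8 := hint G
  rw [heq] at h8
  have h9 : ∀ᶠ j in (U : Filter ℕ),
      |∫ w, G w ∂(ν j : Measure X) - ∫ w, G w ∂μ| < ε := by
    have := (Metric.tendsto_nhds.1 h8) ε hε
    simpa [Real.dist_eq] using this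
  obtain ⟨j, hj⟩ := h9.exists
  have e : ∫ w, G w ∂(ν j : Measure X) = _ := emp_integral T (L j) (z j) G
  rw [e] at hj
  exact absurd hj (not_lt.2 (hz j).le)

end UE

end Pool.Agent.H25.UE
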