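import Mathlib
import Pool.Agent.H25.UE
import Pool.Agent.H25.Resid

set_option autoImplicit false

namespace Pool.Agent.H25.Interp

open MeasureTheory Filter Topology Finset
open Pool.Agent.H25.Resid Pool.Agent.H25.UE

/-! ### Colouring long intervals with all tasks -/

theorem exists_coloring {ι : Type*} [Encodable ι] [Inhabited ι] (col : ι → ℕ → ℕ)
    (S : Set ℕ) [DecidablePred (· ∈ S)] (δ : ℝ)
    (H : ∀ ε : ℝ, 0 < ε → ∀ B : ℕ, ∃ a ≥ B, ∃ L ≥ B,
      (δ - ε) * L ≤ ((Ico a (a + L)).filter (· ∈ S)).card) :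
    ∃ f : ℕ → ℕ, (∀ n, ∃ i, f n = col i n) ∧
      ∀ i : ι, ∀ ε : ℝ, 0 < ε → ∀ B : ℕ, ∃ a ≥ B, ∃ L ≥ B,
        (δ - ε) * L ≤ ((Ico a (a + L)).filter (· ∈ S)).card ∧
        ∀ n ∈ Ico a (a + L), f n = col i n := by
  classical
  choose A hA Λ hΛ hd using H
  have hpos : ∀ j : ℕ, (0 : ℝ) < 1 / ((j : ℝ) + 1) := fun j => by positivity
  -- end points
  let e : ℕ → ℕ := fun j => Nat.rec 0
    (fun j ej => A (1 / ((j : ℝ) + 1)) (hpos j) (ej + j + 1)
      + Λ (1 / ((j : ℝ) + 1)) (hpos j) (ej + j + 1)) j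
  let a : ℕ → ℕ := fun j => A (1 / ((j : ℝ) + 1)) (hpos j) (e j + j + 1)
  let L : ℕ → ℕ := fun j => Λ (1 / ((j : ℝ) + 1)) (hpos j) (e j + j + 1)
  have he : ∀ j, e (j + 1) = a j + L j := fun j => rfl
  have ha : ∀ j, e j + j + 1 ≤ a j := fun j => hA _ (hpos j) _
  have hL : ∀ j, e j + j + 1 ≤ L j := fun j => hΛ _ (hpos j) _
  have hdens : ∀ j : ℕ, (δ - 1 / ((j : ℝ) + 1)) * L j ≤
      ((Ico (a j) (a j + L j)).filter (· ∈ S)).card := fun j => hd _ (hpos j) _
  have hmono : Monotone e := monotone_nat_of_le_succ fun j => by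
    have := ha j
    rw [he]; omega
  have huniq : ∀ n j j', n ∈ Ico (a j) (a j + L j) → n ∈ Ico (a j') (a j' + L j') → j = j' := by
    have key : ∀ n j j', j < j' → n ∈ Ico (a j) (a j + L j) →
        n ∈ Ico (a j') (a j' + L j') → False := by
      intro n j j' hjj h1 h2
      have h3 := hmono (Nat.succ_le_of_lt hjj)
      have h4 := he j
      have h5 := ha j'
      simp only [mem_Ico, Nat.succ_eq_add_one] at *
      omega
    intro n j j' h1 h2
    rcases lt_trichotomy j j' with h | h | h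
    · exact (key n j j' h h1 h2).elim
    · exact h
    · exact (key n j' j h h2 h1).elim
  let t : ℕ → ι := fun j => (Encodable.decode (Nat.unpair j).1).getD default
  have ht : ∀ (i : ι) (m : ℕ), t (Nat.pair (Encodable.encode i) m) = i := by
    intro i m
    simp [t]
  let f : ℕ → ℕ := fun n =>
    if h : ∃ j, n ∈ Ico (a j) (a j + L j) then col (t h.choose) n else col default n
  have hf : ∀ j, ∀ n ∈ Ico (a j) (a j + L j), f n = col (t j) n := by
    intro j n hn
    have h : ∃ j, n ∈ Ico (a j) (a j + L j) := ⟨j, hn⟩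
    simp only [f, dif_pos h]
    rw [huniq n _ j h.choose_spec hn]
  refine ⟨f, ?_, ?_⟩
  · intro n
    by_cases h : ∃ j, n ∈ Ico (a j) (a j + L j)
    · exact ⟨t h.choose, by simp only [f, dif_pos h]⟩
    · exact ⟨default, by simp only [f, dif_neg h]⟩
  · intro i ε hε B
    obtain ⟨m, hm⟩ := exists_nat_one_div_lt hε
    set j := Nat.pair (Encodable.encode i) (max m B) with hj
    have hjm : max m B ≤ j := Nat.right_le_pair _ _
    have hjm' : m ≤ j := (le_max_left _ _).trans hjm
    have hjB : B ≤ j := (le_max_right _ _).trans hjm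
    refine ⟨a j, ?_, L j, ?_, ?_, ?_⟩
    · have := ha j
      show B ≤ a j
      omega
    · have := hL j
      show B ≤ L j
      omega
    · refine le_trans ?_ (hdens j)
      have h1 : 1 / ((j : ℝ) + 1) ≤ ε := by
        refine le_trans ?_ hm.le
        apply one_div_le_one_div_of_le (by positivity)
        have : (m : ℝ) ≤ j := by exact_mod_cast hjm'
        linarith
      have h2 : (0 : ℝ) ≤ L j := by positivity
      nlinarith
    · intro n hn
      rw [hf j n hn, ht]

/-! ### Bump functions -/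

/-- tent function at the integer `c` -/
noncomputable def phi (c : ℕ) (z : ℂ) : ℝ := max 0 (1 - 2 * ‖z - c‖)

lemma phi_nonneg (c : ℕ) (z : ℂ) : 0 ≤ phi c z := le_max_left _ _

lemma phi_le_one (c : ℕ) (z : ℂ) : phi c z ≤ 1 := by
  unfold phi
  refine max_le zero_le_one ?_
  have := norm_nonneg (z - c)
  linarith

lemma phi_self (c : ℕ) : phi c (c : ℂ) = 1 := by simp [phi]

lemma phi_continuous (c : ℕ) : Continuous (phi c) := by
  unfold phi
  fun_prop

lemma phi_sum_le (k : ℕ) (z : ℂ) : ∑ c ∈ range k, phi c z ≤ 1 := by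
  by_cases h : ∃ c ∈ range k, 0 < phi c z
  · obtain ⟨c, hc, hpos⟩ := h
    rw [sum_eq_single c]
    · exact phi_le_one c z
    · intro c' _ hne
      by_contra hne0
      have hpos' : 0 < phi c' z := lt_of_le_of_ne (phi_nonneg c' z) (Ne.symm hne0)
      unfold phi at hpos hpos'
      rw [lt_max_iff] at hpos hpos'
      have h1 : ‖z - c‖ < 1 / 2 := by
        rcases hpos with h | h
        · exact absurd h (lt_irrefl _)
        · linarith
      have h2 : ‖z - c'‖ < 1 / 2 := by
        rcases hpos' with h | h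
        · exact absurd h (lt_irrefl _)
        · linarith
      have h3 : ‖((c : ℤ) - (c' : ℤ) : ℤ)‖ < 1 := by
        have h4 : ‖(c : ℂ) - c'‖ < 1 := by
          have e : (c : ℂ) - c' = (z - c') - (z - c) := by ring
          rw [e]
          have := norm_sub_le (z - c') (z - c)
          linarith
        have e2 : ‖((c : ℤ) - (c' : ℤ) : ℤ)‖ = ‖(c : ℂ) - c'‖ := by
          have e3 : (c : ℂ) - c' = (((c : ℤ) - (c' : ℤ) : ℤ) : ℂ) := by push_cast; rfl
          rw [e3, Complex.norm_intCast, Int.norm_eq_abs]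
        rw [e2]; exact h4
      rw [Int.norm_eq_abs] at h3
      have h5 : |(c : ℤ) - c'| < 1 := by exact_mod_cast h3
      have h6 : (c : ℤ) - c' = 0 := Int.abs_lt_one_iff.1 h5
      exact hne (by omega)
    · intro hn; exact absurd hc hn
  · push Not at h
    refine (sum_nonpos h).trans zero_le_one

/-! ### Orbit averages -/

section Orbit

variable {X : Type*} [MetricSpace X] [CompactSpace X] [MeasurableSpace X] [BorelSpace X]

/-- uniform averages over intervals of an orbit. -/
lemma interval_avg {T : X → X} (hT : Continuous T) {μ : Measure X} [IsProbabilityMeasure μ]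
    (hμ : MeasurePreserving T μ μ)
    (huniq : ∀ ν : Measure X, IsProbabilityMeasure ν → MeasurePreserving T ν ν → ν = μ)
    (x : X) (G : C(X, ℝ)) {ε : ℝ} (hε : 0 < ε) :
    ∃ L₀ : ℕ, 0 < L₀ ∧ ∀ L ≥ L₀, ∀ a : ℕ,
      |∑ n ∈ Ico a (a + L), G (T^[n] x) - L * ∫ w, G w ∂μ| ≤ ε * L := by
  obtain ⟨L₀, hL₀, h⟩ := unif_avg hT hμ huniq G hε
  refine ⟨L₀, hL₀, fun L hL a => ?_⟩
  have h1 := h L hL (T^[a] x)
  have hLpos : (0 : ℝ) < L := by
    have : 0 < L := lt_of_lt_of_le hL₀ hL
    exact_mod_cast this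
  have e : ∑ n ∈ Ico a (a + L), G (T^[n] x) = ∑ n ∈ range L, G (T^[n] (T^[a] x)) := by
    rw [sum_Ico_eq_sum_range]
    simp only [Nat.add_sub_cancel_left]
    refine sum_congr rfl fun n _ => ?_
    rw [← Function.iterate_add_apply, add_comm n a]
  rw [e]
  have e2 : ∑ n ∈ range L, G (T^[n] (T^[a] x)) - L * ∫ w, G w ∂μ
      = L * ((L : ℝ)⁻¹ * ∑ n ∈ range L, G (T^[n] (T^[a] x)) - ∫ w, G w ∂μ) := by
    field_simp
  rw [e2, abs_mul, abs_of_pos hLpos, mul_comm]
  exact mul_le_mul_of_nonneg_right h1 hLpos.le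

/-- Choice of a modulus `P ≥ N₀` such that finitely many given functions along the orbit are
nearly uncorrelated with the residue class of the time modulo `P`. -/
theorem exists_modulus {T : X → X} (hT : Continuous T) {μ : Measure X} [IsProbabilityMeasure μ]
    (hμ : MeasurePreserving T μ μ)
    (huniq : ∀ ν : Measure X, IsProbabilityMeasure ν → MeasurePreserving T ν ν → ν = μ)
    (x : X) {ι : Type*} [Fintype ι] (G : ι → C(X, ℝ)) (hG : ∀ i z, |G i z| ≤ 1)
    (N₀ : ℕ) {η : ℝ} (hη : 0 < η) :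
    ∃ P : ℕ, N₀ ≤ P ∧ 0 < P ∧ ∃ L₀ : ℕ, ∀ L ≥ L₀, ∀ a : ℕ, ∀ i : ι,
      ∑ r ∈ range P, |∑ n ∈ Ico a (a + L),
        if n % P = r then (G i (T^[n] x) - ∫ w, G i w ∂μ) else 0| ≤ η * L := by
  classical
  set κ : ℝ := (Fintype.card ι : ℝ) with hκ
  have hκ0 : 0 ≤ κ := by positivity
  -- centred functions
  have hint : ∀ i, |∫ w, G i w ∂μ| ≤ 1 := by
    intro i
    have h1 : ‖∫ w, G i w ∂μ‖ ≤ 1 * μ.real Set.univ :=
      norm_integral_le_of_norm_le_const (Eventually.of_forall fun z => hG i z)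
    simpa using h1
  let H : ι → C(X, ℝ) := fun i => ⟨fun z => G i z - ∫ w, G i w ∂μ, by fun_prop⟩
  have hH : ∀ i z, |H i z| ≤ 2 := by
    intro i z
    have h1 := hG i z
    have h2 := hint i
    have h3 := abs_sub (G i z) (∫ w, G i w ∂μ)
    show |G i z - ∫ w, G i w ∂μ| ≤ 2
    linarith
  -- number of moduli
  obtain ⟨R, hR⟩ := exists_nat_gt (34 * κ / (η / 4) ^ 2)
  have hη4 : 0 < (η / 4) ^ 2 := by positivity
  have hRpos : (0 : ℝ) < R := lt_of_le_of_lt (by positivity) hR
  have hR0 : 0 < R := by exact_mod_cast hRpos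
  have hinf : {p : ℕ | p.Prime ∧ N₀ ≤ p}.Infinite := by
    refine Set.infinite_of_not_bddAbove ?_
    rintro ⟨b, hb⟩
    obtain ⟨p, hp1, hp2⟩ := Nat.exists_infinite_primes (max N₀ (b + 1))
    have h1 := hb (show p ∈ {p : ℕ | p.Prime ∧ N₀ ≤ p} from ⟨hp2, (le_max_left _ _).trans hp1⟩)
    have h2 := (le_max_right N₀ (b + 1)).trans hp1
    omega
  obtain ⟨PP, hPP, hcard⟩ := hinf.exists_subset_card_eq R
  have hprime : ∀ P ∈ PP, P.Prime := fun P hP => (hPP (by exact_mod_cast hP)).1
  have hge : ∀ P ∈ PP, N₀ ≤ P := fun P hP => (hPP (by exact_mod_cast hP)).2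
  have hpos : ∀ P ∈ PP, 0 < P := fun P hP => (hprime P hP).pos
  have hco : ∀ P ∈ PP, ∀ Q ∈ PP, P ≠ Q → Nat.Coprime P Q := fun P hP Q hQ hne =>
    (Nat.coprime_primes (hprime P hP) (hprime Q hQ)).2 hne
  -- window length
  have hδ : (0 : ℝ) < 1 / R := by positivity
  have hMi : ∀ i, ∃ L₀ : ℕ, 0 < L₀ ∧ ∀ L ≥ L₀, ∀ z : X,
      |(L : ℝ)⁻¹ * ∑ n ∈ range L, G i (T^[n] z) - ∫ w, G i w ∂μ| ≤ 1 / R :=
    fun i => unif_avg hT hμ huniq (G i) hδ
  choose L₁ hL₁pos hL₁ using hMi
  set M : ℕ := (∏ P ∈ PP, P) * (∑ i, L₁ i + 1) with hM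
  have hprodpos : 0 < ∏ P ∈ PP, P := prod_pos hpos
  have hMpos : 0 < M := Nat.mul_pos hprodpos (Nat.succ_pos _)
  have hMge : ∀ i, L₁ i ≤ M := by
    intro i
    have h1 : L₁ i ≤ ∑ i, L₁ i := single_le_sum (f := L₁) (fun _ _ => Nat.zero_le _) (mem_univ i)
    calc L₁ i ≤ 1 * (∑ i, L₁ i + 1) := by omega
      _ ≤ (∏ P ∈ PP, P) * (∑ i, L₁ i + 1) := Nat.mul_le_mul_right _ hprodpos
  have hdvd : ∀ P ∈ PP, P ∣ M := fun P hP => (dvd_prod_of_mem (fun P => P) hP).mul_right _
  have hMR : (0 : ℝ) < M := by exact_mod_cast hMpos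
  -- the functions Z
  let Zf : ι → ℕ → X → ℝ := fun i P z => Z (fun m => H i (T^[m] z)) M P
  have hZcont : ∀ i P, Continuous (Zf i P) := by
    intro i P
    simp only [Zf, Z, cs]
    refine continuous_const.mul (continuous_finsetSum _ fun r _ => Continuous.abs
      (continuous_finsetSum _ fun m _ => ?_))
    split_ifs
    · exact (H i).continuous.comp (hT.iterate m)
    · exact continuous_const
  have hbessel : ∀ i z, ∑ P ∈ PP, (Zf i P z) ^ 2 ≤ 34 := by
    intro i z
    have h1 := bessel PP hpos hco hMpos hdvd (fun m => H i (T^[m] z)) (V := 2)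
      (fun m => hH i _)
    refine h1.trans ?_
    have h2 : |(M : ℝ)⁻¹ * ∑ m ∈ range M, H i (T^[m] z)| ≤ 1 / R := by
      have h3 := hL₁ i M (hMge i) z
      have e : (M : ℝ)⁻¹ * ∑ m ∈ range M, H i (T^[m] z)
          = (M : ℝ)⁻¹ * ∑ n ∈ range M, G i (T^[n] z) - ∫ w, G i w ∂μ := by
        have e1 : ∑ m ∈ range M, H i (T^[m] z)
            = ∑ n ∈ range M, G i (T^[n] z) - M * ∫ w, G i w ∂μ := by
          have : ∀ m ∈ range M, H i (T^[m] z) = G i (T^[m] z) - ∫ w, G i w ∂μ := fun m _ => rfl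
          rw [sum_congr rfl this, sum_sub_distrib]
          simp
        rw [e1]
        field_simp
      rw [e]; exact h3
    rw [hcard]
    have h4 : ((M : ℝ)⁻¹ * ∑ m ∈ range M, H i (T^[m] z)) ^ 2 ≤ (1 / R) ^ 2 := by
      rw [← sq_abs]
      exact pow_le_pow_left₀ (abs_nonneg _) h2 2
    have h5 : 2 * (R : ℝ) * (1 / R) ^ 2 ≤ 2 := by
      have : 2 * (R : ℝ) * (1 / R) ^ 2 = 2 / R := by field_simp
      rw [this, div_le_iff₀ hRpos]
      have : (1 : ℝ) ≤ R := by exact_mod_cast hR0
      linarith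
    have h6 : 2 * (R : ℝ) * ((M : ℝ)⁻¹ * ∑ m ∈ range M, H i (T^[m] z)) ^ 2
        ≤ 2 * (R : ℝ) * (1 / R) ^ 2 := mul_le_mul_of_nonneg_left h4 (by positivity)
    linarith
  -- the sum over `i`
  let Q : ℕ → C(X, ℝ) := fun P => ⟨fun z => ∑ i, (Zf i P z) ^ 2,
    continuous_finsetSum _ fun i _ => (hZcont i P).pow 2⟩
  have hQ : ∀ z, ∑ P ∈ PP, Q P z ≤ 34 * κ := by
    intro z
    have e : ∑ P ∈ PP, Q P z = ∑ i, ∑ P ∈ PP, (Zf i P z) ^ 2 := by
      show ∑ P ∈ PP, ∑ i, (Zf i P z) ^ 2 = _
      rw [sum_comm]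
    rw [e]
    refine (sum_le_sum fun i _ => hbessel i z).trans ?_
    rw [sum_const, nsmul_eq_mul, card_univ, hκ]
    linarith
  have hQint : ∑ P ∈ PP, ∫ z, Q P z ∂μ ≤ 34 * κ := by
    rw [← integral_finsetSum]
    · have h1 : ∫ z, ∑ P ∈ PP, Q P z ∂μ ≤ ∫ _z, 34 * κ ∂μ := by
        refine integral_mono ?_ (integrable_const _) hQ
        exact integrable_finsetSum _ fun P _ =>
          (Q P).continuous.integrable_of_hasCompactSupport (HasCompactSupport.of_compactSpace _)
      simpa using h1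
    · intro P _
      exact (Q P).continuous.integrable_of_hasCompactSupport (HasCompactSupport.of_compactSpace _)
  obtain ⟨P, hP, hPint⟩ : ∃ P ∈ PP, ∫ z, Q P z ∂μ ≤ (η / 4) ^ 2 := by
    by_contra hcon
    push Not at hcon
    have h1 : ∑ P ∈ PP, (η / 4) ^ 2 ≤ ∑ P ∈ PP, ∫ z, Q P z ∂μ :=
      sum_le_sum fun P hP => (hcon P hP).le
    rw [sum_const, nsmul_eq_mul, hcard] at h1
    rw [div_lt_iff₀ hη4] at hR
    linarith
  obtain ⟨L₂, hL₂pos, hL₂⟩ := interval_avg hT hμ huniq x (Q P) (ε := 3 * (η / 4) ^ 2) (by positivity)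
  -- the final length
  obtain ⟨L₃, hL₃⟩ := exists_nat_gt ((2 * P * M * 2 : ℝ) / (η / 2))
  refine ⟨P, hge P hP, hpos P hP, max L₂ L₃, fun L hL a i => ?_⟩
  have hLL₂ : L₂ ≤ L := (le_max_left _ _).trans hL
  have hLL₃ : L₃ ≤ L := (le_max_right _ _).trans hL
  have hLpos : (0 : ℝ) < L := by
    have : 0 < L := lt_of_lt_of_le hL₂pos hLL₂
    exact_mod_cast this
  have h1 := interval_le (fun n => H i (T^[n] x)) (V := 2) (by norm_num) (fun n => hH i _)
    hMpos (hpos P hP) a L
  have h2 : ∑ n ∈ Ico a (a + L), Z (fun m => H i (T^[n + m] x)) M P ≤ (η / 2) * L := by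
    have e : ∀ n ∈ Ico a (a + L), Z (fun m => H i (T^[n + m] x)) M P = Zf i P (T^[n] x) := by
      intro n _
      simp only [Zf]
      congr 1
      funext m
      rw [← Function.iterate_add_apply, add_comm m n]
    rw [sum_congr rfl e]
    have h3 : (∑ n ∈ Ico a (a + L), Zf i P (T^[n] x)) ^ 2
        ≤ L * ∑ n ∈ Ico a (a + L), (Zf i P (T^[n] x)) ^ 2 := by
      have := sq_sum_le_card_mul_sum_sq (s := Ico a (a + L)) (f := fun n => Zf i P (T^[n] x))
      simpa using this
    have h4 : ∑ n ∈ Ico a (a + L), (Zf i P (T^[n] x)) ^ 2 ≤ ∑ n ∈ Ico a (a + L), Q P (T^[n] x) := by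
      refine sum_le_sum fun n _ => ?_
      show (Zf i P (T^[n] x)) ^ 2 ≤ ∑ i, (Zf i P (T^[n] x)) ^ 2
      exact single_le_sum (f := fun i => (Zf i P (T^[n] x)) ^ 2) (fun _ _ => sq_nonneg _)
        (mem_univ i)
    have h5 := (abs_le.1 (hL₂ L hLL₂ a)).2
    have h6 : ∑ n ∈ Ico a (a + L), Q P (T^[n] x) ≤ 4 * (η / 4) ^ 2 * L := by
      have := mul_le_mul_of_nonneg_left hPint hLpos.le
      linarith
    have h7 : (∑ n ∈ Ico a (a + L), Zf i P (T^[n] x)) ^ 2 ≤ ((η / 2) * L) ^ 2 := by
      refine h3.trans ?_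
      have := mul_le_mul_of_nonneg_left (h4.trans h6) hLpos.le
      refine this.trans (le_of_eq ?_)
      ring
    exact (le_abs_self _).trans (abs_le_of_sq_le_sq h7 (by positivity))
  have h3 : 2 * (P : ℝ) * M * 2 ≤ (η / 2) * L := by
    rw [div_lt_iff₀ (by positivity)] at hL₃
    have : (L₃ : ℝ) ≤ L := by exact_mod_cast hLL₃
    nlinarith
  have h4 : ∑ r ∈ range P, |∑ n ∈ Ico a (a + L),
        if n % P = r then (G i (T^[n] x) - ∫ w, G i w ∂μ) else 0|
      = ∑ r ∈ range P, |∑ n ∈ Ico a (a + L), if n % P = r then H i (T^[n] x) else 0| := rfl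
  rw [h4]
  linarith

lemma prod_ge_one_sub {ι : Type*} (s : Finset ι) (f : ι → ℝ) (h0 : ∀ i, 0 ≤ f i)
    (h1 : ∀ i, f i ≤ 1) : 1 - ∑ i ∈ s, (1 - f i) ≤ ∏ i ∈ s, f i := by
  classical
  induction s using Finset.induction_on with
  | empty => simp
  | insert a s ha ih =>
    rw [sum_insert ha, prod_insert ha]
    have h2 : ∏ i ∈ s, f i ≤ 1 := prod_le_one (fun i _ => h0 i) (fun i _ => h1 i)
    have h3 : 0 ≤ ∏ i ∈ s, f i := prod_nonneg fun i _ => h0 i
    nlinarith [h0 a, h1 a, mul_nonneg (sub_nonneg.2 (h1 a)) (sub_nonneg.2 h2)]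

/-- The colour of time `n` in the task with modulus `P` and word `w` of length `N`. -/
def colour {k N : ℕ} [NeZero N] (P : ℕ) (w : Fin N → Fin k) (n : ℕ) : ℕ :=
  (w (Fin.ofNat N (n % P)) : ℕ)

/-- `F` on the orbit realises every task on arbitrarily long and far intervals on which `S` has
density at least `δ - ε`. -/
def Realises {X : Type*} (k N : ℕ) [NeZero N] (S : Set ℕ) [DecidablePred (· ∈ S)] (δ : ℝ)
    (T : X → X) (x : X) (F : X → ℂ) : Prop :=
  ∀ (P : ℕ) (w : Fin N → Fin k), ∀ ε : ℝ, 0 < ε → ∀ B : ℕ, ∃ a ≥ B, ∃ L ≥ B,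
    (δ - ε) * L ≤ ((Ico a (a + L)).filter (· ∈ S)).card ∧
    ∀ n ∈ Ico a (a + L), n ∈ S → F (T^[n] x) = colour P w n

/-- each bump has integral at least `δ`. -/
lemma integral_phi_ge {T : X → X} (hT : Continuous T) {μ : Measure X} [IsProbabilityMeasure μ]
    (hμ : MeasurePreserving T μ μ)
    (huniq : ∀ ν : Measure X, IsProbabilityMeasure ν → MeasurePreserving T ν ν → ν = μ)
    (x : X) {F : X → ℂ} (hF : Continuous F) {k N : ℕ} [NeZero N] {S : Set ℕ}
    [DecidablePred (· ∈ S)] {δ : ℝ} (hR : Realises k N S δ T x F) (c : Fin k) :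
    δ ≤ ∫ z, phi c (F z) ∂μ := by
  let G : C(X, ℝ) := ⟨fun z => phi c (F z), (phi_continuous c).comp hF⟩
  refine le_of_forall_pos_le_add fun ε hε => ?_
  obtain ⟨L₀, hL₀, h⟩ := interval_avg hT hμ huniq x G (half_pos hε)
  obtain ⟨a, _, L, hL, hd, hf⟩ := hR 1 (fun _ => c) (ε / 2) (half_pos hε) L₀
  have hLpos : (0 : ℝ) < L := by
    have : 0 < L := lt_of_lt_of_le hL₀ hL
    exact_mod_cast this
  have h1 := (abs_le.1 (h L hL a)).2
  have h2 : (((Ico a (a + L)).filter (· ∈ S)).card : ℝ) ≤ ∑ n ∈ Ico a (a + L), G (T^[n] x) := by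
    have e : (((Ico a (a + L)).filter (· ∈ S)).card : ℝ)
        = ∑ n ∈ (Ico a (a + L)).filter (· ∈ S), (1 : ℝ) := by simp
    rw [e]
    refine (sum_le_sum fun n hn => ?_).trans
      (sum_le_sum_of_subset_of_nonneg (filter_subset _ _) fun n _ _ => phi_nonneg _ _)
    rw [mem_filter] at hn
    show (1 : ℝ) ≤ phi c (F (T^[n] x))
    rw [hf n hn.1 hn.2]
    simp [colour, phi_self]
  have h3 : (δ - ε) * L ≤ L * ∫ w, G w ∂μ := by linarith
  have h4 : δ - ε ≤ ∫ w, G w ∂μ := by
    rw [mul_comm] at h3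
    exact le_of_mul_le_mul_left h3 hLpos
  have h5 : ∫ w, G w ∂μ = ∫ z, phi c (F z) ∂μ := rfl
  linarith

lemma phi_integrable {μ : Measure X} [IsProbabilityMeasure μ] {F : X → ℂ} (hF : Continuous F)
    (c : ℕ) : Integrable (fun z => phi c (F z)) μ :=
  ((phi_continuous c).comp hF).integrable_of_hasCompactSupport (HasCompactSupport.of_compactSpace _)

lemma integral_phi_sum_le {μ : Measure X} [IsProbabilityMeasure μ] {F : X → ℂ}
    (hF : Continuous F) (k : ℕ) : ∑ c : Fin k, ∫ z, phi c (F z) ∂μ ≤ 1 := by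
  rw [← integral_finsetSum _ fun c _ => phi_integrable hF _]
  have h1 : ∫ z, ∑ c : Fin k, phi c (F z) ∂μ ≤ ∫ _z, (1 : ℝ) ∂μ := by
    refine integral_mono (integrable_finsetSum _ fun c _ => phi_integrable hF _)
      (integrable_const _) fun z => ?_
    have := phi_sum_le k (F z)
    rw [← Fin.sum_univ_eq_sum_range (fun c => phi c (F z)) k] at this
    exact this
  simpa using h1

/-- Upper bound for the density. -/
theorem density_le {T : X → X} (hT : Continuous T) {μ : Measure X} [IsProbabilityMeasure μ]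
    (hμ : MeasurePreserving T μ μ)
    (huniq : ∀ ν : Measure X, IsProbabilityMeasure ν → MeasurePreserving T ν ν → ν = μ)
    (x : X) {F : X → ℂ} (hF : Continuous F) {k N : ℕ} [NeZero N] {S : Set ℕ}
    [DecidablePred (· ∈ S)] {δ : ℝ} (hR : Realises k N S δ T x F) : k * δ ≤ 1 := by
  have h1 := integral_phi_sum_le (μ := μ) hF k
  have h2 : ∑ _c : Fin k, δ ≤ ∑ c : Fin k, ∫ z, phi c (F z) ∂μ :=
    sum_le_sum fun c _ => integral_phi_ge hT hμ huniq x hF hR c
  simp only [sum_const, card_univ, Fintype.card_fin, nsmul_eq_mul] at h2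
  linarith

/-- With density `1/k`, the set `S` contains a run of length `N`. -/
theorem exists_run {T : X → X} (hT : Continuous T) {μ : Measure X} [IsProbabilityMeasure μ]
    (hμ : MeasurePreserving T μ μ)
    (huniq : ∀ ν : Measure X, IsProbabilityMeasure ν → MeasurePreserving T ν ν → ν = μ)
    (x : X) {F : X → ℂ} (hF : Continuous F) {k N : ℕ} (hk : 0 < k) [NeZero N] {S : Set ℕ}
    [DecidablePred (· ∈ S)] (hR : Realises k N S (1 / k) T x F) :
    ∃ n, ∀ i < N, n + i ∈ S := by
  classical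
  have hN : 0 < N := Nat.pos_of_ne_zero (NeZero.ne N)
  have hNR : (0 : ℝ) < N := by exact_mod_cast hN
  have hkR : (0 : ℝ) < k := by exact_mod_cast hk
  -- all the bump integrals are `1/k`
  have hphi : ∀ c : Fin k, ∫ z, phi c (F z) ∂μ = 1 / k := by
    intro c
    have h1 := integral_phi_sum_le (μ := μ) hF k
    have h2 : ∀ c : Fin k, (1 : ℝ) / k ≤ ∫ z, phi c (F z) ∂μ :=
      fun c => integral_phi_ge hT hμ huniq x hF hR c
    refine le_antisymm ?_ (h2 c)
    have h3 : ∑ c' ∈ univ.erase c, (1 : ℝ) / k ≤ ∑ c' ∈ univ.erase c, ∫ z, phi c' (F z) ∂μ :=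
      sum_le_sum fun c' _ => h2 c'
    rw [← add_sum_erase _ _ (mem_univ c)] at h1
    rw [sum_const, card_erase_of_mem (mem_univ c), card_univ, Fintype.card_fin, nsmul_eq_mul,
      Nat.cast_sub (by omega)] at h3
    have h4 : ((k : ℝ) - (1 : ℕ)) * (1 / k) = 1 - 1 / k := by
      push_cast; field_simp
    rw [h4] at h3
    linarith
  -- the word functions
  let g : (Fin N → Fin k) → X → ℝ := fun w z => ∏ i : Fin N, phi (w i) (F (T^[i] z))
  have hgc : ∀ w, Continuous (g w) := fun w =>
    continuous_finsetProd _ fun i _ => (phi_continuous _).comp (hF.comp (hT.iterate i))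
  have hg0 : ∀ w z, 0 ≤ g w z := fun w z => prod_nonneg fun i _ => phi_nonneg _ _
  have hg1 : ∀ w z, g w z ≤ 1 := fun w z =>
    prod_le_one (fun i _ => phi_nonneg _ _) fun i _ => phi_le_one _ _
  have hgint : ∀ w, Integrable (g w) μ := fun w =>
    (hgc w).integrable_of_hasCompactSupport (HasCompactSupport.of_compactSpace _)
  let s : X → ℝ := fun z => ∑ c : Fin k, phi c (F z)
  have hsc : Continuous s := continuous_finsetSum _ fun c _ => (phi_continuous _).comp hF
  have hs0 : ∀ z, 0 ≤ s z := fun z => sum_nonneg fun c _ => phi_nonneg _ _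
  have hs1 : ∀ z, s z ≤ 1 := by
    intro z
    have := phi_sum_le k (F z)
    rw [← Fin.sum_univ_eq_sum_range (fun c => phi c (F z)) k] at this
    exact this
  have hsint : ∫ z, s z ∂μ = 1 := by
    show ∫ z, ∑ c : Fin k, phi c (F z) ∂μ = 1
    rw [integral_finsetSum _ fun c _ => phi_integrable hF _]
    simp only [hphi, sum_const, card_univ, Fintype.card_fin, nsmul_eq_mul]
    field_simp
  have hsintegrable : Integrable s μ :=
    hsc.integrable_of_hasCompactSupport (HasCompactSupport.of_compactSpace _)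
  have hexists : ∃ w, 0 < ∫ z, g w z ∂μ := by
    by_contra hcon
    push Not at hcon
    have h1 : ∫ z, ∏ i : Fin N, s (T^[i] z) ∂μ ≤ 0 := by
      have e : ∀ z, ∏ i : Fin N, s (T^[i] z) = ∑ w : Fin N → Fin k, g w z := by
        intro z
        simp only [s, g]
        rw [prod_univ_sum, Fintype.piFinset_univ]
      simp only [e]
      rw [integral_finsetSum _ fun w _ => hgint w]
      exact sum_nonpos fun w _ => hcon w
    have hiter : ∀ i : ℕ, ∫ z, s (T^[i] z) ∂μ = 1 := by
      intro i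
      have h2 : MeasurePreserving (T^[i]) μ μ := hμ.iterate i
      have h3 := integral_map (μ := μ) h2.measurable.aemeasurable (f := s)
        hsc.aestronglyMeasurable
      rw [h2.map_eq] at h3
      rw [← h3, hsint]
    have hiterint : ∀ i : ℕ, Integrable (fun z => s (T^[i] z)) μ := fun i =>
      (hsc.comp (hT.iterate i)).integrable_of_hasCompactSupport (HasCompactSupport.of_compactSpace _)
    have i0 : ∀ i : Fin N, Integrable (fun z => 1 - s (T^[i] z)) μ := fun i =>
      (integrable_const _).sub (hiterint i)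
    have i1 : Integrable (fun z => ∑ i : Fin N, (1 - s (T^[i] z))) μ :=
      integrable_finsetSum _ fun i _ => i0 i
    have i2 : Continuous (fun z => ∏ i : Fin N, s (T^[i] z)) :=
      continuous_finsetProd _ fun i _ => hsc.comp (hT.iterate i)
    have h3 : (1 : ℝ) ≤ ∫ z, ∏ i : Fin N, s (T^[i] z) ∂μ := by
      have h4 : ∫ z, (1 - ∑ i : Fin N, (1 - s (T^[i] z))) ∂μ
          ≤ ∫ z, ∏ i : Fin N, s (T^[i] z) ∂μ := by
        refine integral_mono ((integrable_const _).sub i1)
          (i2.integrable_of_hasCompactSupport (HasCompactSupport.of_compactSpace _))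
          fun z => prod_ge_one_sub _ _ (fun i => hs0 _) (fun i => hs1 _)
      rw [integral_sub (integrable_const _) i1, integral_finsetSum _ fun i _ => i0 i] at h4
      have h5 : ∀ i : Fin N, ∫ z, (1 - s (T^[i] z)) ∂μ = 0 := by
        intro i
        rw [integral_sub (integrable_const _) (hiterint i), hiter]
        simp
      simpa [h5] using h4
    linarith
  obtain ⟨w, hw⟩ := hexists
  set γ : ℝ := ∫ z, g w z ∂μ with hγ
  have hγ1 : γ ≤ 1 := by
    have : ∫ z, g w z ∂μ ≤ ∫ _z, (1 : ℝ) ∂μ :=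
      integral_mono (hgint w) (integrable_const _) (hg1 w)
    simpa using this
  -- small parameter
  set η : ℝ := γ / (16 * N ^ 2 * k) with hη
  have hη0 : 0 < η := by positivity
  -- the family of functions
  let G : Option (Fin k) → C(X, ℝ) := fun o => match o with
    | none => ⟨g w, hgc w⟩
    | some c => ⟨fun z => phi c (F z), (phi_continuous c).comp hF⟩
  have hG : ∀ o z, |G o z| ≤ 1 := by
    intro o z
    rcases o with _ | c
    · show |g w z| ≤ 1
      rw [abs_of_nonneg (hg0 w z)]; exact hg1 w z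
    · show |phi c (F z)| ≤ 1
      rw [abs_of_nonneg (phi_nonneg _ _)]; exact phi_le_one _ _
  obtain ⟨P, hPN, hP, L₀, hL₀⟩ := exists_modulus hT hμ huniq x G hG N hη0
  have hPR : (0 : ℝ) < P := by exact_mod_cast hP
  obtain ⟨L₁, hL₁⟩ := exists_nat_gt ((N + 2 * P * γ) / (γ / (8 * N)))
  obtain ⟨a, _, L, hL, hd, hf⟩ := hR P w η hη0 (max L₀ (max L₁ N))
  have hLL₀ : L₀ ≤ L := (le_max_left _ _).trans hL
  have hLL₁ : L₁ ≤ L := ((le_max_left _ _).trans (le_max_right _ _)).trans hL
  have hLN : N ≤ L := ((le_max_right _ _).trans (le_max_right _ _)).trans hL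
  have hLR : (0 : ℝ) < L := by
    have : 0 < L := lt_of_lt_of_le hN hLN
    exact_mod_cast this
  by_contra hno
  push Not at hno
  set I := Ico a (a + L) with hI
  set y : ℕ → ℂ := fun n => F (T^[n] x) with hy
  set u : ℕ → ℕ := fun n => colour P w n with hu
  -- (i)
  have hA : ∑ n ∈ I, phi (u n) (y n) ≤ L / k + k * η * L := by
    have e1 : ∀ n ∈ I, phi (u n) (y n)
        = ∑ c : Fin k, if u n = c then phi c (y n) else 0 := by
      intro n _
      rw [sum_eq_single (w (Fin.ofNat N (n % P)))]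
      · simp [hu, colour]
      · intro c _ hne
        rw [if_neg]
        intro h
        apply hne
        exact (Fin.ext h).symm
      · intro h; exact absurd (mem_univ _) h
    rw [sum_congr rfl e1, sum_comm]
    have e2 : ∀ c : Fin k, ∑ n ∈ I, (if u n = c then phi c (y n) else 0)
        ≤ (∑ n ∈ I, if u n = c then (1 : ℝ) else 0) / k + η * L := by
      intro c
      have h1 := hL₀ L hLL₀ a (some c)
      have e3 : ∑ n ∈ I, (if u n = c then phi c (y n) else 0)
          - (∑ n ∈ I, if u n = c then (1 : ℝ) else 0) / k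
          = ∑ r ∈ range P, if colour P w r = c then
              (∑ n ∈ I, if n % P = r then (phi c (y n) - 1 / k) else 0) else 0 := by
        have e4 : ∀ r ∈ range P, (if colour P w r = c then
              (∑ n ∈ I, if n % P = r then (phi c (y n) - 1 / k) else 0) else 0)
            = ∑ n ∈ I, if n % P = r then
                (if u n = c then (phi c (y n) - 1 / k) else 0) else 0 := by
          intro r hr
          have hr' : r % P = r := Nat.mod_eq_of_lt (by simpa using hr)
          have hur : ∀ n, n % P = r → u n = colour P w r := by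
            intro n hn
            simp only [hu, colour, hn, hr']
          by_cases hc : colour P w r = c
          · rw [if_pos hc]
            refine sum_congr rfl fun n _ => ?_
            by_cases hn : n % P = r
            · rw [if_pos hn, if_pos hn, if_pos ((hur n hn).trans hc)]
            · rw [if_neg hn, if_neg hn]
          · rw [if_neg hc]
            symm
            refine sum_eq_zero fun n _ => ?_
            by_cases hn : n % P = r
            · rw [if_pos hn, if_neg (fun h => hc ((hur n hn).symm.trans h))]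
            · rw [if_neg hn]
        rw [sum_congr rfl e4, sum_comm]
        have e5 : ∀ n ∈ I, (∑ r ∈ range P, if n % P = r then
                (if u n = c then (phi c (y n) - 1 / k) else 0) else 0)
            = (if u n = c then phi c (y n) else 0) - (if u n = c then (1 : ℝ) else 0) / k := by
          intro n _
          rw [sum_ite_eq]
          simp only [mem_range, Nat.mod_lt _ hP, if_true]
          split_ifs <;> simp
        rw [sum_congr rfl e5, sum_sub_distrib, sum_div]
      have e6 : ∑ r ∈ range P, (if colour P w r = c then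
              (∑ n ∈ I, if n % P = r then (phi c (y n) - 1 / k) else 0) else 0)
          ≤ ∑ r ∈ range P, |∑ n ∈ Ico a (a + L),
              if n % P = r then (G (some c) (T^[n] x) - ∫ w, G (some c) w ∂μ) else 0| := by
        refine sum_le_sum fun r _ => ?_
        have e7 : ∫ w, G (some c) w ∂μ = 1 / k := hphi c
        rw [e7]
        split_ifs
        · exact le_abs_self _
        · exact abs_nonneg _
      linarith
    refine (sum_le_sum fun c _ => e2 c).trans ?_
    rw [sum_add_distrib, ← sum_div, sum_comm]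
    have e8 : ∀ n ∈ I, ∑ c : Fin k, (if u n = c then (1 : ℝ) else 0) = 1 := by
      intro n _
      rw [sum_eq_single (w (Fin.ofNat N (n % P)))]
      · simp [hu, colour]
      · intro c _ hne
        rw [if_neg]
        intro h
        apply hne
        exact (Fin.ext h).symm
      · intro h; exact absurd (mem_univ _) h
    rw [sum_congr rfl e8]
    simp only [hI, sum_const, Nat.card_Ico, Nat.add_sub_cancel_left, card_univ, Fintype.card_fin,
      nsmul_eq_mul, mul_one]
    linarith
  -- (ii)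
  have hE : ∑ n ∈ I, (if n ∈ S then 0 else phi (u n) (y n)) ≤ (k * η + η) * L := by
    have e1 : ∑ n ∈ I, (if n ∈ S then 0 else phi (u n) (y n))
        + ∑ n ∈ I, (if n ∈ S then (1 : ℝ) else 0) = ∑ n ∈ I, phi (u n) (y n) := by
      rw [← sum_add_distrib]
      refine sum_congr rfl fun n hn => ?_
      by_cases h : n ∈ S
      · rw [if_pos h, if_pos h, zero_add]
        have : y n = (u n : ℂ) := hf n hn h
        rw [this, phi_self]
      · rw [if_neg h, if_neg h, add_zero]
    have e2 : ∑ n ∈ I, (if n ∈ S then (1 : ℝ) else 0) = (I.filter (· ∈ S)).card := by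
      rw [← sum_filter]; simp
    rw [e2] at e1
    have e3 : ((1 : ℝ) / k - η) * L ≤ (I.filter (· ∈ S)).card := hd
    have e4 : ((1 : ℝ) / k - η) * L = L / k - η * L := by ring
    rw [e4] at e3
    linarith
  -- (iii)
  let R : ℕ → Prop := fun r => r % N = 0 ∧ r + N ≤ P
  let ρ : ℕ → ℝ := fun n => if R (n % P) then 1 else 0
  have hρ0 : ∀ n, 0 ≤ ρ n := fun n => by simp only [ρ]; split_ifs <;> norm_num
  have hρ1 : ∀ n, ρ n ≤ 1 := fun n => by simp only [ρ]; split_ifs <;> norm_num
  have hB : γ * ∑ n ∈ I, ρ n - η * L ≤ ∑ n ∈ I, ρ n * g w (T^[n] x) := by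
    have h1 := hL₀ L hLL₀ a none
    have e3 : ∑ n ∈ I, ρ n * g w (T^[n] x) - γ * ∑ n ∈ I, ρ n
        = ∑ r ∈ range P, if R r then
            (∑ n ∈ I, if n % P = r then (g w (T^[n] x) - γ) else 0) else 0 := by
      have e4 : ∀ r ∈ range P, (if R r then
            (∑ n ∈ I, if n % P = r then (g w (T^[n] x) - γ) else 0) else 0)
          = ∑ n ∈ I, if n % P = r then ρ n * (g w (T^[n] x) - γ) else 0 := by
        intro r _
        by_cases hc : R r
        · rw [if_pos hc]
          refine sum_congr rfl fun n _ => ?_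
          by_cases hn : n % P = r
          · have : ρ n = 1 := by simp only [ρ, hn, if_pos hc]
            rw [if_pos hn, if_pos hn, this, one_mul]
          · rw [if_neg hn, if_neg hn]
        · rw [if_neg hc]
          symm
          refine sum_eq_zero fun n _ => ?_
          by_cases hn : n % P = r
          · have : ρ n = 0 := by simp only [ρ, hn, if_neg hc]
            rw [if_pos hn, this, zero_mul]
          · rw [if_neg hn]
      rw [sum_congr rfl e4, sum_comm]
      have e5 : ∀ n ∈ I, (∑ r ∈ range P, if n % P = r then ρ n * (g w (T^[n] x) - γ) else 0)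
          = ρ n * g w (T^[n] x) - γ * ρ n := by
        intro n _
        rw [sum_ite_eq]
        simp only [mem_range, Nat.mod_lt _ hP, if_true]
        ring
      rw [sum_congr rfl e5, sum_sub_distrib, mul_sum]
    have e6 : -(∑ r ∈ range P, |∑ n ∈ Ico a (a + L),
            if n % P = r then (G none (T^[n] x) - ∫ w, G none w ∂μ) else 0|)
        ≤ ∑ r ∈ range P, (if R r then
            (∑ n ∈ I, if n % P = r then (g w (T^[n] x) - γ) else 0) else 0) := by
      rw [← sum_neg_distrib]
      refine sum_le_sum fun r _ => ?_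
      have e7 : ∫ w, G none w ∂μ = γ := rfl
      rw [e7]
      split_ifs
      · exact neg_abs_le _
      · exact neg_nonpos.2 (abs_nonneg _)
    linarith
  have hρsum : (L : ℝ) / (2 * N) - 2 * P ≤ ∑ n ∈ I, ρ n := by
    have h1 : ∀ m ∈ range P, |∑ n ∈ I, ρ (n + m) - ∑ n ∈ I, ρ n| ≤ 2 * P := by
      intro m hm
      have h2 := shift_sum ρ (V := 1) (fun n => by rw [abs_of_nonneg (hρ0 n)]; exact hρ1 n) a L m
      have h3 : (m : ℝ) ≤ P := by exact_mod_cast (mem_range.1 hm).le
      linarith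
    have h2 : ∑ m ∈ range P, ∑ n ∈ I, ρ (n + m) ≤ P * (∑ n ∈ I, ρ n + 2 * P) := by
      have : ∀ m ∈ range P, ∑ n ∈ I, ρ (n + m) ≤ ∑ n ∈ I, ρ n + 2 * P := fun m hm => by
        have := (abs_le.1 (h1 m hm)).2
        linarith
      refine (sum_le_sum this).trans ?_
      rw [sum_const, card_range, nsmul_eq_mul]
    have h3 : ∑ m ∈ range P, ∑ n ∈ I, ρ (n + m)
        = L * ∑ r ∈ range P, (if R r then (1 : ℝ) else 0) := by
      rw [sum_comm]
      have : ∀ n ∈ I, ∑ m ∈ range P, ρ (n + m) = ∑ r ∈ range P, (if R r then (1 : ℝ) else 0) :=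
        fun n _ => resid_shift hP (fun r => if R r then (1 : ℝ) else 0) n
      rw [sum_congr rfl this, sum_const, nsmul_eq_mul]
      simp [hI]
    have h4 : (P : ℝ) / (2 * N) ≤ ∑ r ∈ range P, (if R r then (1 : ℝ) else 0) := by
      have h5 : P / N ≤ ((range P).filter (fun r => R r)).card := by
        have h6 : (range (P / N)).image (fun q => N * q) ⊆ (range P).filter (fun r => R r) := by
          intro r hr
          obtain ⟨q, hq, rfl⟩ := mem_image.1 hr
          rw [mem_range] at hq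
          have h7 : N * (q + 1) ≤ P := (Nat.mul_le_mul_left N hq).trans (Nat.mul_div_le P N)
          rw [mem_filter, mem_range]
          refine ⟨?_, ?_, ?_⟩
          · rw [Nat.mul_succ] at h7; omega
          · simp
          · rw [Nat.mul_succ] at h7; exact h7
        have h8 := card_le_card h6
        rw [card_image_of_injective _ (fun q q' h => Nat.eq_of_mul_eq_mul_left hN h),
          card_range] at h8
        exact h8
      have h9 : (P : ℝ) ≤ 2 * N * ((P / N : ℕ) : ℝ) := by
        have h10 : P < N * (P / N) + N := by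
          have := Nat.div_add_mod P N
          have := Nat.mod_lt P hN
          omega
        have h11 : 1 ≤ P / N := (Nat.one_le_div_iff hN).2 hPN
        have h12 : P ≤ 2 * N * (P / N) := by nlinarith
        exact_mod_cast h12
      rw [← sum_filter, sum_const, nsmul_eq_mul, mul_one, div_le_iff₀ (by positivity)]
      have h13 : ((P / N : ℕ) : ℝ) ≤ ((range P).filter (fun r => R r)).card := by exact_mod_cast h5
      nlinarith
    rw [h3] at h2
    have h5 : (L : ℝ) * (P / (2 * N)) ≤ P * (∑ n ∈ I, ρ n + 2 * P) :=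
      (mul_le_mul_of_nonneg_left h4 hLR.le).trans h2
    have h6 : (P : ℝ) * (L / (2 * N)) ≤ P * (∑ n ∈ I, ρ n + 2 * P) := by
      calc (P : ℝ) * (L / (2 * N)) = (L : ℝ) * (P / (2 * N)) := by ring
        _ ≤ _ := h5
    have h7 := le_of_mul_le_mul_left h6 hPR
    linarith
  -- (iv)
  have hW : ∑ n ∈ I, ρ n * g w (T^[n] x)
      ≤ N * ∑ n ∈ I, (if n ∈ S then 0 else phi (u n) (y n)) + N := by
    have hsplit : ∑ n ∈ I, ρ n * g w (T^[n] x)
        = ∑ n ∈ Ico a (a + L - N), ρ n * g w (T^[n] x)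
          + ∑ n ∈ Ico (a + L - N) (a + L), ρ n * g w (T^[n] x) :=
      (sum_Ico_consecutive _ (by omega) (by omega)).symm
    have h1 : ∑ n ∈ Ico (a + L - N) (a + L), ρ n * g w (T^[n] x) ≤ N := by
      refine (sum_le_sum fun n _ => mul_le_one₀ (hρ1 n) (hg0 _ _) (hg1 _ _)).trans ?_
      have : a + L - (a + L - N) = N := by omega
      simp [this]
    have h2 : ∀ n ∈ Ico a (a + L - N), ρ n * g w (T^[n] x)
        ≤ ∑ i ∈ range N, (if n + i ∈ S then 0 else phi (u (n + i)) (y (n + i))) := by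
      intro n _
      have hterm : ∀ i, 0 ≤ (if n + i ∈ S then (0 : ℝ) else phi (u (n + i)) (y (n + i))) := by
        intro i
        split_ifs
        · exact le_rfl
        · exact phi_nonneg _ _
      by_cases hRn : R (n % P)
      · obtain ⟨i, hi, hiS⟩ := hno n
        have hρn : ρ n = 1 := by simp only [ρ, if_pos hRn]
        rw [hρn, one_mul]
        refine le_trans ?_ (single_le_sum (f := fun i => (if n + i ∈ S then (0 : ℝ) else
          phi (u (n + i)) (y (n + i)))) (fun j _ => hterm j) (mem_range.2 hi))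
        simp only [if_neg hiS]
        -- the colour
        have hui : u (n + i) = w ⟨i, hi⟩ := by
          simp only [hu, colour]
          congr 2
          ext
          simp only [Fin.val_ofNat]
          have h3 : (n + i) % P = n % P + i := by
            have h4 : n % P + i < P := by have := hRn.2; omega
            rw [← Nat.mod_add_mod, Nat.mod_eq_of_lt h4]
          rw [h3, Nat.add_mod, hRn.1, zero_add, Nat.mod_mod, Nat.mod_eq_of_lt hi]
        rw [hui]
        have hyi : y (n + i) = F (T^[i] (T^[n] x)) := by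
          simp only [hy]
          rw [← Function.iterate_add_apply, add_comm i n]
        rw [hyi]
        show ∏ j : Fin N, phi (w j) (F (T^[j] (T^[n] x))) ≤ _
        have h5 := prod_le_one (s := univ.erase (⟨i, hi⟩ : Fin N))
          (f := fun j : Fin N => phi (w j) (F (T^[j] (T^[n] x))))
          (fun j _ => phi_nonneg _ _) (fun j _ => phi_le_one _ _)
        rw [← mul_prod_erase _ _ (mem_univ (⟨i, hi⟩ : Fin N))]
        have h6 := mul_le_mul_of_nonneg_left h5
          (phi_nonneg (w ⟨i, hi⟩) (F (T^[i] (T^[n] x))))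
        rw [mul_one] at h6
        exact h6
      · have hρn : ρ n = 0 := by simp only [ρ, if_neg hRn]
        rw [hρn, zero_mul]
        exact sum_nonneg fun i _ => hterm i
    have h3 : ∑ n ∈ Ico a (a + L - N), ρ n * g w (T^[n] x)
        ≤ N * ∑ n ∈ I, (if n ∈ S then 0 else phi (u n) (y n)) := by
      refine (sum_le_sum h2).trans ?_
      rw [sum_comm]
      refine (sum_le_sum fun i hi => ?_).trans (by rw [sum_const, card_range, nsmul_eq_mul] :
        ∑ _i ∈ range N, ∑ n ∈ I, (if n ∈ S then 0 else phi (u n) (y n))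
          ≤ N * ∑ n ∈ I, (if n ∈ S then 0 else phi (u n) (y n)))
      have h4 : ∑ n ∈ Ico a (a + L - N), (if n + i ∈ S then 0 else phi (u (n + i)) (y (n + i)))
          = ∑ n ∈ Ico (a + i) (a + L - N + i), (if n ∈ S then 0 else phi (u n) (y n)) :=
        sum_Ico_add' (fun n => if n ∈ S then 0 else phi (u n) (y n)) a (a + L - N) i
      rw [h4]
      refine sum_le_sum_of_subset_of_nonneg ?_ fun n _ _ => ?_
      · intro n hn
        rw [mem_range] at hi
        rw [mem_Ico] at hn
        rw [hI, mem_Ico]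
        omega
      · split_ifs
        · exact le_rfl
        · exact phi_nonneg _ _
    linarith
  -- contradiction
  have h1 : γ * ((L : ℝ) / (2 * N) - 2 * P) ≤ γ * ∑ n ∈ I, ρ n :=
    mul_le_mul_of_nonneg_left hρsum hw.le
  have h2 : (N : ℝ) * ∑ n ∈ I, (if n ∈ S then 0 else phi (u n) (y n)) ≤ N * ((k * η + η) * L) :=
    mul_le_mul_of_nonneg_left hE hNR.le
  have h3 : N + 2 * P * γ < γ / (8 * N) * L := by
    rw [div_lt_iff₀ (by positivity)] at hL₁
    have : (L₁ : ℝ) ≤ L := by exact_mod_cast hLL₁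
    have h4 : (L₁ : ℝ) * (γ / (8 * N)) ≤ L * (γ / (8 * N)) :=
      mul_le_mul_of_nonneg_right this (by positivity)
    linarith
  have h4 : η ≤ γ / (16 * N) := by
    rw [hη]
    have hN1 : (1 : ℝ) ≤ N := by exact_mod_cast hN
    have hk1 : (1 : ℝ) ≤ k := by exact_mod_cast hk
    apply div_le_div_of_nonneg_left hw.le (by positivity)
    nlinarith [mul_le_mul hN1 hk1 (by positivity) (by positivity)]
  have h5 : N * (k * η + η) ≤ γ / (8 * N) := by
    have hk1 : (1 : ℝ) ≤ k := by exact_mod_cast hk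
    have h6 : N * (k * η) = γ / (16 * N) := by
      rw [hη]; field_simp
    have h7 : (N : ℝ) * η ≤ N * (k * η) := by
      apply mul_le_mul_of_nonneg_left _ hNR.le
      nlinarith
    have h8 : γ / (8 * N) = γ / (16 * N) + γ / (16 * N) := by field_simp; norm_num
    rw [h8]
    linarith
  have h6 : (N : ℝ) * ((k * η + η) * L) ≤ γ / (8 * N) * L := by
    have := mul_le_mul_of_nonneg_right h5 hLR.le
    linarith
  have h7 : η * L ≤ γ / (16 * N) * L := mul_le_mul_of_nonneg_right h4 hLR.le
  have h8 : γ * ((L : ℝ) / (2 * N)) = γ / (16 * N) * L * 8 := by field_simp; norm_num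
  have h9 : γ / (8 * N) * L = γ / (16 * N) * L * 2 := by field_simp; norm_num
  have h10 : 0 < γ / (16 * N) * L := by positivity
  rw [h9] at h3 h6
  linarith

end Orbit

end Pool.Agent.H25.Interp
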