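import Mathlib
import Pool.Agent.H25.Ext.Final

set_option autoImplicit false

/-!
The plane is identified with `ℂ` and `ℝ³` with `ℂ × ℝ` (product Lebesgue measure).

For `q > 3` the conjectured extension estimate for the paraboloid in `ℝ³` is proved for all
densities which are `C¹` off a closed set `Γ` of upper regular dimension `β` (for `β = 1`: finite
unions of Lipschitz graphs or bi-Lipschitz arcs, and so on), at the price of a weighted
norm of the Cauchy-Riemann derivative that degenerates at `Γ`, and vanishes for densities that are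
holomorphic, for instance locally constant, off `Γ`.

Idea of the proof. At a fixed time `t` the operator is an isometry of `L²` up to a constant, and
integration by parts against `exp (-i t |z - c|²)` with the primitive
`(exp (-i t |z - c|²) - 1) / (z - c)` of the Cauchy-Riemann operator gives pointwise decay of order
`1/|t|`, up to a logarithm, for functions of size one living at scale `s` in the
`s`-neighbourhood of a one-dimensional set. Real interpolation on the scale of grid cells, followed
by integration in `t`, gives a power gain in `s` for every `q > 3`, and the Whitney shells of `Γ`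
can be summed.
-/

namespace Pool.Agent.Results.MP_5ab805_an.RegularSingularSet

open MeasureTheory

/-- The Fourier extension operator of the paraboloid `(x, |x|²)`, `x = x₁ + i x₂`, at the point
`ξ = (ξ₁ + i ξ₂, ξ₃)`: the integral of `exp (-i (x₁ ξ₁ + x₂ ξ₂ + |x|² ξ₃)) f(x)`. -/
noncomputable def extension (f : ℂ → ℂ) (ξ : ℂ × ℝ) : ℂ :=
  ∫ x : ℂ, Complex.exp (-(Complex.I *
    ((x.re * ξ.1.re + x.im * ξ.1.im + (x.re ^ 2 + x.im ^ 2) * ξ.2 : ℝ) : ℂ))) * f x

/-- The Cauchy-Riemann derivative `(∂₁ f + i ∂₂ f) / 2`. -/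
noncomputable def dbar (f : ℂ → ℂ) (z : ℂ) : ℂ :=
  (fderiv ℝ f z 1 + Complex.I * fderiv ℝ f z Complex.I) / 2

/-- `Γ` is a nonempty closed set and for all `0 < s ≤ r` its closed `s`-neighbourhood has area at
most `A s^(2-β) r^β` in every closed disc of radius `r`. -/
structure UpperRegular (Γ : Set ℂ) (β A : ℝ) : Prop where
  closed : IsClosed Γ
  nonempty : Γ.Nonempty
  area_le : ∀ (c : ℂ) (r s : ℝ), 0 < s → s ≤ r →
    volume (Metric.cthickening s Γ ∩ Metric.closedBall c r) ≤
      ENNReal.ofReal (A * s ^ (2 - β) * r ^ β)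

/-- The weight `min(1, dist(z, Γ))^κ`. -/
noncomputable def weight (Γ : Set ℂ) (κ : ℝ) (z : ℂ) : ℝ := (min 1 (Metric.infDist z Γ)) ^ κ

/-- Let `q > 3`, `β ≥ 1`, `κ ≥ 1` and `κ < (2 - β) (q - 2)` (for `β = κ = 1` every `q > 3` is
allowed). There is a constant `C = C(q, β, κ)` such that for every closed set `Γ` which is upper
`β`-regular with constant `A ≥ 1` and every `f` supported in the closed unit disc and `C¹` off `Γ`,
`‖E f‖_{L^q(ℝ³)} ≤ C A^(1-2/q) (‖f‖_q + ‖min(1, dist(·, Γ))^κ ∂̄f‖_q)`. -/
theorem result (q β κ : ℝ) (hq : 3 < q) (hβ : 1 ≤ β) (hκ : 1 ≤ κ)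
    (h : κ < (2 - β) * (q - 2)) :
    ∃ C : ℝ, ∀ (A : ℝ) (Γ : Set ℂ) (f : ℂ → ℂ), 1 ≤ A → UpperRegular Γ β A →
      (∀ z, 1 < ‖z‖ → f z = 0) → ContDiffOn ℝ 1 f Γᶜ →
      eLpNorm (extension f) (ENNReal.ofReal q) volume ≤
        ENNReal.ofReal (C * A ^ (1 - 2 / q)) *
          (eLpNorm f (ENNReal.ofReal q) volume +
            eLpNorm (fun z => (weight Γ κ z : ℂ) * dbar f z) (ENNReal.ofReal q) volume) := by
  have hβ2 : β < 2 := by
    by_contra hc
    push Not at hc
    have h1 : (2 - β) * (q - 2) ≤ 0 :=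
      mul_nonpos_of_nonpos_of_nonneg (by linarith) (by linarith)
    linarith
  obtain ⟨C, _, hC⟩ := H25.Ext.main_est hq hβ hβ2 hκ h
  refine ⟨C, ?_⟩
  intro A Γ f hA hΓ hf0 hf
  have h1 := hC A hA Γ hΓ.closed hΓ.nonempty hΓ.area_le f hf0 hf
  have e : (q - 2) / q = 1 - 2 / q := by
    have : q ≠ 0 := by linarith
    field_simp
  rw [e] at h1
  exact h1

end Pool.Agent.Results.MP_5ab805_an.RegularSingularSet
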